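import Pool.Agent.Run7.h653.GI.Fd
import Pool.Agent.Run7.h653.AE.Crs

/-!
The code of a finite graph: a bipartite graph of large minimum degree, subdivided and flipped.
-/

set_option autoImplicit false

namespace Pool.Agent.Run7.h653.GI

open Pool.Agent.TH748.CG hiding SS
open Pool.Agent.Run7.h653.AE (SS YY Root)

/-- the vertices of the incidence graph -/
abbrev Vn (m : ℕ) : Type := Fin m ⊕ (Fin m × Fin m)

/-- the first side -/
def Pn {m : ℕ} (x : Vn m) : Prop := x.isLeft = true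

/-- the edges, for the padded vertex set -/
def EE {n : ℕ} (G : SimpleGraph (Fin n)) (a b : Fin (n + 20)) : Prop :=
  ∃ (ha : a.val < n) (hb : b.val < n), G.Adj ⟨a.val, ha⟩ ⟨b.val, hb⟩

/-- the pair `(a, b)` is not adjacent to `a`, and not adjacent to `b` if `a` and `b` are adjacent -/
def NA {n : ℕ} (G : SimpleGraph (Fin n)) (c a b : Fin (n + 20)) : Prop :=
  (c = a ∧ a.val < n) ∨ (c = b ∧ EE G a b)

/-- the incidence graph -/
def AA {n : ℕ} (G : SimpleGraph (Fin n)) : Vn (n + 20) → Vn (n + 20) → Prop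
  | .inl c, .inr q => ¬ NA G c q.1 q.2
  | .inr q, .inl c => ¬ NA G c q.1 q.2
  | .inl _, .inl _ => False
  | .inr _, .inr _ => False

theorem pn_l {m : ℕ} (c : Fin m) : Pn (.inl c : Vn m) := rfl

theorem pn_r {m : ℕ} (q : Fin m × Fin m) : ¬ Pn (.inr q : Vn m) := fun h => by
  simp [Pn] at h

section

variable {n : ℕ} (G : SimpleGraph (Fin n))

theorem ee_symm {a b : Fin (n + 20)} (h : EE G a b) : EE G b a := by
  obtain ⟨ha, hb, h⟩ := h
  exact ⟨hb, ha, h.symm⟩

theorem aa_part (u w : Vn (n + 20)) (h : AA G u w) : Pn u ↔ ¬ Pn w := by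
  rcases u with u | u <;> rcases w with w | w
  · exact h.elim
  · exact iff_of_true (pn_l _) (pn_r _)
  · exact iff_of_false (pn_r _) (fun h => h (pn_l _))
  · exact h.elim

theorem aa_symm (u w : Vn (n + 20)) (h : AA G u w) : AA G w u := by
  rcases u with u | u <;> rcases w with w | w <;> exact h

theorem fr_univ : Fr 18 fun _ : Fin (n + 20) => True := by
  unfold Fr
  have : {x : Fin (n + 20) | True} = Set.univ := by
    ext
    simp
  rw [this, Set.encard_univ, ENat.card_eq_coe_fintype_card, Fintype.card_fin]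
  exact_mod_cast (by omega : 18 < n + 20)

/-- a vertex different from four given ones -/
theorem ex_four (a b c d : Fin (n + 20)) : ∃ e : Fin (n + 20), e ≠ a ∧ e ≠ b ∧ e ≠ c ∧ e ≠ d := by
  obtain ⟨e, -, h1, h2, h3, h4⟩ := (fr_univ (n := n)).meet
    ((ev_ne a).and ((ev_ne b).and ((ev_ne c).and (ev_ne d)))) (by omega)
  exact ⟨e, h1, h2, h3, h4⟩

theorem aa_of {c a b : Fin (n + 20)} (h1 : c ≠ a) (h2 : c ≠ b) : AA G (.inl c) (.inr (a, b)) := by
  rintro (h | h)
  · exact h1 h.1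
  · exact h2 h.1

/-- every vertex has many neighbours -/
theorem aa_fr (u : Vn (n + 20)) : Fr 16 fun w => AA G u w := by
  rcases u with c | ⟨a, b⟩
  · obtain ⟨a, ha, -⟩ := ex_four c c c c
    have h1 : Function.Injective (fun b => .inr (a, b) : Fin (n + 20) → Vn (n + 20)) := by
      intro b b' h
      simpa using h
    refine Fr.map h1 (((fr_univ (n := n)).and (k := 17) (ev_ne c)).le (by omega) |>.mono ?_)
    rintro b ⟨-, hb⟩
    exact aa_of G ha.symm (Ne.symm hb)
  · have h1 : Function.Injective (fun c => .inl c : Fin (n + 20) → Vn (n + 20)) := by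
      intro b b' h
      simpa using h
    refine Fr.map h1 (((fr_univ (n := n)).and (k := 16) ((ev_ne a).and (ev_ne b))).mono ?_)
    rintro c ⟨-, h1, h2⟩
    exact aa_symm G _ _ (aa_of G h1 h2)

theorem aa_thin (u : Vn (n + 20)) : ¬ thin (AA G) u := by
  rintro ⟨y, z, -, -, -, h⟩
  obtain ⟨w, h1, h2, h3⟩ := (aa_fr G u).meet ((ev_ne y).and (ev_ne z)) (by omega)
  rcases h w h1 with h4 | h4
  · exact h2 h4
  · exact h3 h4

/-- the sides are definable -/
theorem side_iff (x y : Vn (n + 20)) : (∃ z, AA G x z ∧ AA G y z) ↔ (Pn x ↔ Pn y) := by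
  constructor
  · rintro ⟨z, h1, h2⟩
    rw [aa_part G _ _ h1, aa_part G _ _ h2]
  · rcases x with c | ⟨a, b⟩ <;> rcases y with c' | ⟨a', b'⟩
    · intro _
      obtain ⟨a, h1, h2, -⟩ := ex_four c c' c c
      exact ⟨.inr (a, a), aa_of G h1.symm h1.symm, aa_of G h2.symm h2.symm⟩
    · intro h
      exact absurd (h.1 (pn_l _)) (pn_r _)
    · intro h
      exact absurd (h.2 (pn_l _)) (pn_r _)
    · intro _
      obtain ⟨c, h1, h2, h3, h4⟩ := ex_four a b a' b'
      exact ⟨.inl c, aa_symm G _ _ (aa_of G h1 h2), aa_symm G _ _ (aa_of G h3 h4)⟩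

/-- the genuine vertices -/
theorem gen_iff (c : Fin (n + 20)) : c.val < n ↔ ∃ q, ¬ AA G (.inl c) (.inr q) := by
  constructor
  · exact fun h => ⟨(c, c), fun h' => h' (Or.inl ⟨rfl, h⟩)⟩
  · rintro ⟨⟨a, b⟩, h⟩
    have h : NA G c a b := not_not.1 h
    rcases h with ⟨rfl, h⟩ | ⟨rfl, h⟩
    · exact h
    · exact h.2.1

/-- adjacency -/
theorem adj_iff {c d : Fin (n + 20)} (hcd : c ≠ d) :
    EE G c d ↔ ∃ q, ¬ AA G (.inl c) (.inr q) ∧ ¬ AA G (.inl d) (.inr q) := by
  constructor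
  · intro h
    exact ⟨(c, d), fun h' => h' (Or.inl ⟨rfl, h.1⟩), fun h' => h' (Or.inr ⟨rfl, h⟩)⟩
  · rintro ⟨⟨a, b⟩, h1, h2⟩
    have h1 : NA G c a b := not_not.1 h1
    have h2 : NA G d a b := not_not.1 h2
    rcases h1 with ⟨rfl, -⟩ | ⟨rfl, h3⟩ <;> rcases h2 with ⟨rfl, -⟩ | ⟨rfl, h4⟩
    · exact absurd rfl hcd
    · exact h4
    · exact ee_symm G h3
    · exact absurd rfl hcd

end

theorem swap_card {m m' : ℕ} (φ : Vn m ≃ Vn m') (h : ∀ x, Pn (φ x) ↔ ¬ Pn x) : m * m ≤ m' := by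
  have h1 : ∀ q : Fin m × Fin m, ∃ c, φ (.inr q) = .inl c := by
    intro q
    have h2 := (h (.inr q)).2 (pn_r _)
    cases h3 : φ (.inr q) with
    | inl c => exact ⟨c, rfl⟩
    | inr q' => exact absurd (h3 ▸ h2) (pn_r _)
  choose f hf using h1
  have h2 : Function.Injective f := by
    intro q q' e
    have : φ (.inr q) = φ (.inr q') := by rw [hf, hf, e]
    simpa using this
  have := Fintype.card_le_of_injective f h2
  simpa using this

/-- **isomorphisms of the incidence graphs are given by isomorphisms of the graphs** -/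
theorem iso_of_aa {n n' : ℕ} {G : SimpleGraph (Fin n)} {H : SimpleGraph (Fin n')}
    (φ : Vn (n + 20) ≃ Vn (n' + 20)) (hφ : ∀ x y, AA H (φ x) (φ y) ↔ AA G x y) :
    Nonempty (G ≃g H) := by
  have hs : ∀ x y, (Pn (φ x) ↔ Pn (φ y)) ↔ (Pn x ↔ Pn y) := by
    intro x y
    rw [← side_iff H, ← side_iff G]
    constructor
    · rintro ⟨z, h1, h2⟩
      obtain ⟨z, rfl⟩ := φ.surjective z
      exact ⟨z, (hφ _ _).1 h1, (hφ _ _).1 h2⟩
    · rintro ⟨z, h1, h2⟩
      exact ⟨φ z, (hφ _ _).2 h1, (hφ _ _).2 h2⟩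
  have hP : ∀ x, Pn (φ x) ↔ Pn x := by
    by_contra hcon
    push Not at hcon
    obtain ⟨x0, h0⟩ := hcon
    have h1 : ∀ x, Pn (φ x) ↔ ¬ Pn x := by
      intro x
      have := hs x x0
      tauto
    have h2 : ∀ y, Pn (φ.symm y) ↔ ¬ Pn y := by
      intro y
      have := h1 (φ.symm y)
      rw [φ.apply_symm_apply] at this
      tauto
    have h3 := swap_card φ h1
    have h4 := swap_card φ.symm h2
    nlinarith
  have hl : ∀ c : Fin (n + 20), ∃ d, φ (.inl c) = .inl d := by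
    intro c
    have h2 := (hP (.inl c)).2 (pn_l _)
    cases h3 : φ (.inl c) with
    | inl d => exact ⟨d, rfl⟩
    | inr q' => exact absurd (h3 ▸ h2) (pn_r _)
  have hr : ∀ q : Fin (n + 20) × Fin (n + 20), ∃ q', φ (.inr q) = .inr q' := by
    intro q
    have h2 := mt (hP (.inr q)).1 (pn_r _)
    cases h3 : φ (.inr q) with
    | inl d => exact absurd (h3 ▸ pn_l d) h2
    | inr q' => exact ⟨q', rfl⟩
  have hl' : ∀ d : Fin (n' + 20), ∃ c, φ.symm (.inl d) = .inl c := by
    intro d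
    cases h3 : φ.symm (.inl d) with
    | inl c => exact ⟨c, rfl⟩
    | inr q =>
      obtain ⟨q', hq'⟩ := hr q
      rw [← h3, φ.apply_symm_apply] at hq'
      exact absurd hq' (by simp)
  have hr' : ∀ q' : Fin (n' + 20) × Fin (n' + 20), ∃ q, φ (.inr q) = .inr q' := by
    intro q'
    cases h3 : φ.symm (.inr q') with
    | inl c =>
      obtain ⟨d, hd⟩ := hl c
      rw [← h3, φ.apply_symm_apply] at hd
      exact absurd hd (by simp)
    | inr q =>
      refine ⟨q, ?_⟩
      rw [← h3, φ.apply_symm_apply]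
  choose f hf using hl
  choose k hk using hl'
  have hkf : ∀ c, k (f c) = c := by
    intro c
    have h := hk (f c)
    rw [← hf, φ.symm_apply_apply] at h
    exact (Sum.inl.inj h).symm
  have hfk : ∀ d, f (k d) = d := by
    intro d
    have h := hf (k d)
    rw [← hk, φ.apply_symm_apply] at h
    exact (Sum.inl.inj h).symm
  have hg : ∀ c, (f c).val < n' ↔ c.val < n := by
    intro c
    rw [gen_iff H, gen_iff G]
    constructor
    · rintro ⟨q', h⟩
      obtain ⟨q, hq⟩ := hr' q'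
      rw [← hf, ← hq, hφ] at h
      exact ⟨q, h⟩
    · rintro ⟨q, h⟩
      obtain ⟨q', hq⟩ := hr q
      rw [← hφ, hf, hq] at h
      exact ⟨q', h⟩
  have hE : ∀ c d, c ≠ d → (EE H (f c) (f d) ↔ EE G c d) := by
    intro c d hcd
    have hcd' : f c ≠ f d := fun e => hcd (by rw [← hkf c, ← hkf d, e])
    rw [adj_iff H hcd', adj_iff G hcd]
    constructor
    · rintro ⟨q', h1, h2⟩
      obtain ⟨q, hq⟩ := hr' q'
      rw [← hf, ← hq, hφ] at h1 h2
      exact ⟨q, h1, h2⟩
    · rintro ⟨q, h1, h2⟩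
      obtain ⟨q', hq⟩ := hr q
      rw [← hφ, hf, hq] at h1 h2
      exact ⟨q', h1, h2⟩
  let e : Fin n ≃ Fin n' :=
    { toFun := fun c => ⟨(f (Fin.castAdd 20 c)).val, (hg _).2 c.2⟩
      invFun := fun d => ⟨(k (Fin.castAdd 20 d)).val, by
        have h := hg (k (Fin.castAdd 20 d))
        rw [hfk] at h
        exact h.1 d.2⟩
      left_inv := fun c => by
        apply Fin.ext
        show (k (Fin.castAdd 20 ⟨(f (Fin.castAdd 20 c)).val, _⟩)).val = c.val
        have : (Fin.castAdd 20 (⟨(f (Fin.castAdd 20 c)).val, (hg _).2 c.2⟩ : Fin n')) =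
          f (Fin.castAdd 20 c) := Fin.ext rfl
        rw [this, hkf]
        rfl
      right_inv := fun d => by
        apply Fin.ext
        show (f (Fin.castAdd 20 ⟨(k (Fin.castAdd 20 d)).val, _⟩)).val = d.val
        have : ∀ h, (Fin.castAdd 20 (⟨(k (Fin.castAdd 20 d)).val, h⟩ : Fin n)) =
          k (Fin.castAdd 20 d) := fun _ => Fin.ext rfl
        rw [this, hfk]
        rfl }
  refine ⟨⟨e, ?_⟩⟩
  intro c d
  by_cases hcd : c = d
  · subst hcd
    exact iff_of_false (H.loopless.1 _) (G.loopless.1 _)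
  · have h1 : Fin.castAdd 20 c ≠ Fin.castAdd 20 d := fun h => hcd (Fin.ext (congrArg Fin.val h :))
    have h2 := hE _ _ h1
    constructor
    · intro h
      obtain ⟨_, _, h3⟩ := h2.1 ⟨(hg _).2 c.2, (hg _).2 d.2, h⟩
      exact h3
    · intro h
      obtain ⟨_, _, h3⟩ := h2.2 ⟨c.2, d.2, h⟩
      exact h3

end Pool.Agent.Run7.h653.GI
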