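import Pool.Agent.Run7.h653.GI.Fa

/-!
The code of a finite graph: isomorphisms of codes and isomorphisms of graphs.
-/

set_option autoImplicit false

namespace Pool.Agent.Run7.h653.GI

open Pool.Agent.TH748.CG hiding SS
open Pool.Agent.Run7.h653.AE (SS YY Root ss_comm lay yy_map)

/-- the vertices of the code -/
abbrev Cv {n : ℕ} (G : SimpleGraph (Fin n)) (N : ℕ) : Type := Sv (AA G) Pn N

/-- the code -/
def CG {n : ℕ} (c : Prop) (g : ℕ → ℕ → Prop) (hg : ∀ i j, g i j → g j i) (N : ℕ)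
    (G : SimpleGraph (Fin n)) : SimpleGraph (Cv G N) where
  Adj := YY c g
  symm := ⟨fun x y h => ⟨h.1.symm, by
    have h2 := h.2
    rw [ss_comm, show g (lay x) (lay y) ↔ g (lay y) (lay x) from ⟨hg _ _, hg _ _⟩] at h2
    exact h2⟩⟩
  loopless := ⟨fun x h => h.1 rfl⟩

section

variable {c : Prop} {g : ℕ → ℕ → Prop} {hg : ∀ i j, g i j → g j i} {N : ℕ}

theorem ho {n : ℕ} (G : SimpleGraph (Fin n)) (hN : 2 ≤ N) (x : Cv G N) :
    ¬ thin BS x ↔ ∃ v, x = .o v := by
  rw [thin_iff (aa_part G) (aa_symm G) (by omega) (aa_thin G)]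
  constructor
  · intro h
    cases x with
    | o v => exact ⟨v, rfl⟩
    | md u w h0 i =>
      refine absurd ⟨u, w, h0, i + 1, by omega, i.2, ?_⟩ h
      rw [ps_md u w h0 (by omega) i.2]
      rfl
  · rintro ⟨v, rfl⟩ ⟨u, w, h, j, h1, h2, h3⟩
    rcases ps_eq_o h3.symm with ⟨h4, -⟩ | ⟨h4, -⟩ <;> omega

/-- **decoding** -/
theorem iso_of_cg {n n' : ℕ} {G : SimpleGraph (Fin n)} {H : SimpleGraph (Fin n')} (hN : 2 ≤ N)
    (ψ : CG c g hg N G ≃g CG c g hg N H) : Nonempty (G ≃g H) := by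
  have hr : 1 ≤ N := by omega
  have hψ0 : ∀ x y, YY c g (ψ.toEquiv x) (ψ.toEquiv y) ↔ YY c g x y := fun x y => ψ.map_rel_iff
  let ψ' : Cv G N ≃ Cv H N := ψ.toEquiv
  have hψ : ∀ x y, BS (ψ' x) (ψ' y) ↔ BS x y := by
    intro x y
    rw [← dec_iff (c := c) (g := g) (aa_part H) hN (aa_fr H) (aa_symm H),
      ← dec_iff (c := c) (g := g) (aa_part G) hN (aa_fr G) (aa_symm G)]
    exact dec_tr ψ' hψ0 x y
  have hψ' : ∀ x y, BS (ψ'.symm x) (ψ'.symm y) ↔ BS x y := fun x y => by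
    rw [← hψ, ψ'.apply_symm_apply, ψ'.apply_symm_apply]
  have h1 : ∀ v, ∃ v', ψ' (.o v) = .o v' := fun v =>
    (ho H hN _).1 fun h => (ho G hN (.o v)).2 ⟨v, rfl⟩ ((thin_eq ψ' hψ _).1 h)
  have h2 : ∀ v, ∃ v', ψ'.symm (.o v) = .o v' := fun v =>
    (ho G hN _).1 fun h => (ho H hN (.o v)).2 ⟨v, rfl⟩ ((thin_eq ψ'.symm hψ' _).1 h)
  choose f hf using h1
  choose k hk using h2
  have hgf : ∀ x, k (f x) = x := by
    intro x
    have h := hk (f x)
    rw [← hf, ψ'.symm_apply_apply] at h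
    exact (Sv.o.inj h).symm
  have hfg : ∀ y, f (k y) = y := by
    intro y
    have h := hf (k y)
    rw [← hk, ψ'.apply_symm_apply] at h
    exact (Sv.o.inj h).symm
  let φ : Vn (n + 20) ≃ Vn (n' + 20) := ⟨f, k, hgf, hfg⟩
  have had : ∀ {n : ℕ} (G : SimpleGraph (Fin n)) (u w : Vn (n + 20)),
      AdS BS N (.o u : Cv G N) (.o w) ↔ AA G u w := by
    intro n G u w
    rw [ads_iff (aa_part G) (aa_symm G) hr (aa_thin G)]
    constructor
    · rintro ⟨u', w', h1, h2, h3⟩
      rw [Sv.o.inj h1, Sv.o.inj h2]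
      exact h3
    · intro h
      exact ⟨u, w, rfl, rfl, h⟩
  refine iso_of_aa (G := G) (H := H) φ fun u w => ?_
  rw [← had H, ← had G]
  change AdS BS N (.o (f u)) (.o (f w)) ↔ _
  rw [← hf, ← hf]
  constructor
  · rintro ⟨x, hx⟩
    refine ⟨ψ'.symm x, ?_⟩
    have h := pth_eq ψ'.symm hψ' hx
    rw [ψ'.symm_apply_apply, ψ'.symm_apply_apply] at h
    exact h
  · rintro ⟨x, hx⟩
    exact ⟨ψ' x, pth_eq ψ' hψ hx⟩

/-- **coding** -/
theorem cg_of_iso {n n' : ℕ} {G : SimpleGraph (Fin n)} {H : SimpleGraph (Fin n')} (hN : 2 ≤ N)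
    (σ : G ≃g H) : Nonempty (CG c g hg N G ≃g CG c g hg N H) := by
  have hn : n = n' := by
    have := Fintype.card_congr σ.toEquiv
    simpa using this
  subst hn
  let τ : Fin (n + 20) ≃ Fin (n + 20) :=
    finSumFinEquiv.symm.trans ((Equiv.sumCongr σ.toEquiv (Equiv.refl _)).trans finSumFinEquiv)
  have t1 : ∀ u : Fin n, τ (Fin.castAdd 20 u) = Fin.castAdd 20 (σ u) := by
    intro u
    show finSumFinEquiv ((Equiv.sumCongr σ.toEquiv (Equiv.refl _))
      (finSumFinEquiv.symm (Fin.castAdd 20 u))) = _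
    rw [finSumFinEquiv_symm_apply_castAdd]
    rfl
  have t2 : ∀ u : Fin 20, τ (Fin.natAdd n u) = Fin.natAdd n u := by
    intro u
    show finSumFinEquiv ((Equiv.sumCongr σ.toEquiv (Equiv.refl _))
      (finSumFinEquiv.symm (Fin.natAdd n u))) = _
    rw [finSumFinEquiv_symm_apply_natAdd]
    rfl
  have tl : ∀ a, (τ a).val < n ↔ a.val < n := by
    intro a
    induction a using Fin.addCases with
    | left a =>
      rw [t1]
      exact iff_of_true (σ a).2 a.2
    | right a =>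
      rw [t2]
  have tE : ∀ a b, EE H (τ a) (τ b) ↔ EE G a b := by
    intro a b
    induction a using Fin.addCases with
    | left a =>
      induction b using Fin.addCases with
      | left b =>
        rw [t1, t1]
        constructor
        · rintro ⟨_, _, h⟩
          exact ⟨a.2, b.2, σ.map_adj_iff.1 h⟩
        · rintro ⟨_, _, h⟩
          exact ⟨(σ a).2, (σ b).2, σ.map_adj_iff.2 h⟩
      | right b =>
        rw [t2]
        refine iff_of_false ?_ ?_
        · rintro ⟨_, h, _⟩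
          simp at h
        · rintro ⟨_, h, _⟩
          simp at h
    | right a =>
      rw [t2]
      refine iff_of_false ?_ ?_
      · rintro ⟨h, _, _⟩
        simp at h
      · rintro ⟨h, _, _⟩
        simp at h
  have tN : ∀ c a b, NA H (τ c) (τ a) (τ b) ↔ NA G c a b := by
    intro c a b
    unfold NA
    rw [τ.injective.eq_iff, τ.injective.eq_iff, tl, tE]
  let f : Vn (n + 20) ≃ Vn (n + 20) := Equiv.sumCongr τ (Equiv.prodCongr τ τ)
  have fA : ∀ u w, AA H (f u) (f w) ↔ AA G u w := by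
    rintro (u | u) (w | w)
    · exact Iff.rfl
    · exact not_congr (tN _ _ _)
    · exact not_congr (tN _ _ _)
    · exact Iff.rfl
  have fP : ∀ u, Pn (f u) ↔ Pn u := by
    rintro (u | u)
    · exact iff_of_true (pn_l _) (pn_l _)
    · exact iff_of_false (pn_r _) (pn_r _)
  have hb : Function.Bijective (svMap f fA fP : Cv G N → Cv H N) := by
    refine ⟨svMap_inj _ _ _ f.injective, fun y => ?_⟩
    cases y with
    | o v => exact ⟨.o (f.symm v), congrArg Sv.o (f.apply_symm_apply v)⟩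
    | md u w h i =>
      refine ⟨.md (f.symm u) (f.symm w) ⟨?_, ?_⟩ i, ?_⟩
      · rw [← fP, f.apply_symm_apply]
        exact h.1
      · rw [← fA, f.apply_symm_apply, f.apply_symm_apply]
        exact h.2
      · have key : ∀ (a b : Vn (n + 20)) (ha : a = u) (hb : b = w) (h7 : Pn a ∧ AA H a b),
            (Sv.md a b h7 i : Cv H N) = .md u w h i := by
          rintro _ _ rfl rfl h7
          rfl
        exact key _ _ (f.apply_symm_apply u) (f.apply_symm_apply w) _
  exact ⟨⟨Equiv.ofBijective _ hb, fun {x y} => yy_map f fA fP f.injective hN c g x y⟩⟩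

theorem cg_iff {n n' : ℕ} (G : SimpleGraph (Fin n)) (H : SimpleGraph (Fin n')) (hN : 2 ≤ N) :
    Nonempty (CG c g hg N G ≃g CG c g hg N H) ↔ Nonempty (G ≃g H) :=
  ⟨fun ⟨ψ⟩ => iso_of_cg hN ψ, fun ⟨σ⟩ => cg_of_iso hN σ⟩

end

end Pool.Agent.Run7.h653.GI
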