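import Pool.Agent.Run7.h653.GI.Qn
import Pool.Agent.Run7.h653.AE.Dc

/-!
The edges of the subdivided graph are definable from its flip (finite version).
-/

set_option autoImplicit false

namespace Pool.Agent.Run7.h653.GI

open Pool.Agent.TH748.CG hiding SS
open Pool.Agent.Run7.h653.AE (rt lay SS YY Root Gm md_eq rt_md lay_md bs_oo bs_mo bs_mm lay_zero
  rt_root bs_root bs_root' lay_rt bs_rt gm_uniq gm_nr nr_of_lay yy_iff xor_g ss_symm ss_comm bs_ne
  not_root_md)

section sub

variable {V : Type} {A : V → V → Prop} {P : V → Prop} {N : ℕ} {c : Prop} {g : ℕ → ℕ → Prop}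

/-- vertices that are not roots have at most two neighbours -/
theorem ev_nb {w : Sv A P N} (hw : ¬ Root w) : Ev 2 fun z => ¬ BS w z := by
  cases w with
  | o v => exact absurd ⟨v, rfl⟩ hw
  | md u w h i =>
    have hi := i.2
    rw [md_eq]
    have h1 : {z | ¬ ¬ BS (ps N u w h (i.1 + 1)) z} ⊆
        {ps N u w h (i.1 + 1 - 1), ps N u w h (i.1 + 1 + 1)} := by
      intro z hz
      have h1 : BS (ps N u w h (i.1 + 1)) z := by
        by_contra h2
        exact hz h2
      rw [nb_md (by omega) (by omega)] at h1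
      rcases h1 with rfl | rfl
      · left
        rfl
      · right
        rfl
    refine (Set.encard_le_encard h1).trans ((Set.encard_insert_le _ _).trans ?_)
    rw [Set.encard_singleton]
    exact one_add_one_eq_two.le

variable (hP : ∀ u w, A u w → (P u ↔ ¬ P w)) (hN : 2 ≤ N)
  (hA : ∀ u, Fr 16 fun w => A u w) (hs : ∀ u w, A u w → A w u)

include hP hA hs in
/-- there are many vertices of the same kind -/
theorem fr_same {z : Sv A P N} (hz : ¬ Root z) :
    Fr 16 fun z' : Sv A P N => lay z' = lay z ∧ rt z' = rt z := by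
  cases z with
  | o v => exact absurd ⟨v, rfl⟩ hz
  | md u w h i =>
    have hi := i.2
    by_cases h1 : i.1 + 1 = N ∧ i.1 ≠ 0
    · have hPw : ∀ u', A w u' → P u' ∧ A u' w := by
        intro u' hu'
        have h3 := hP _ _ h.2
        have h4 := hP _ _ hu'
        exact ⟨by tauto, hs _ _ hu'⟩
      refine (hA w).map_sub (f := fun u' hu' => (.md u' w (hPw u' hu') i : Sv A P N)) ?_ ?_
      · intro a ha b hb hab
        simp only [Sv.md.injEq] at hab
        exact hab.1
      · intro u' hu'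
        refine ⟨rfl, ?_⟩
        rw [rt_md, rt_md, if_neg h1.2, if_pos h1.1, if_neg h1.2]
    · refine (hA u).map_sub (f := fun w' hw' => (.md u w' ⟨h.1, hw'⟩ i : Sv A P N)) ?_ ?_
      · intro a ha b hb hab
        simp only [Sv.md.injEq] at hab
        exact hab.2.1
      · intro w' hw'
        refine ⟨rfl, ?_⟩
        rw [rt_md, rt_md]
        by_cases h3 : i.1 = 0
        · rw [if_pos h3, if_pos h3]
        · have h4 : ¬ i.1 + 1 = N := fun h4 => h1 ⟨h4, h3⟩
          rw [if_neg h3, if_neg h4, if_neg h3, if_neg h4]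

include hN in
theorem ss_ev (x : Sv A P N) : Ev 3 fun w => (SS c x w ↔ ∃ v, Gm c x v ∧ rt w = some v) := by
  by_cases hx : Root x
  · obtain ⟨v, rfl⟩ := hx
    refine Ev.of_all fun w => ?_
    unfold SS
    rw [bs_root' hN]
    constructor
    · rintro (h | ⟨-, -, v', h, -⟩)
      · exact ⟨v, Or.inl rfl, h⟩
      · exact absurd h (by simp [rt])
    · rintro ⟨v', h1 | ⟨-, h1⟩, h2⟩
      · rw [Sv.o.inj h1]
        exact Or.inl h2
      · exact absurd h1 (by simp [rt])
  · refine ((ev_nb hx).and (ev_ne x)).mono ?_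
    rintro w ⟨h1, h2⟩
    have h3 : x ≠ w := fun h => h2 h.symm
    unfold SS
    simp only [h1, false_or, gm_nr hx, h3, ne_eq, not_false_iff, true_and]
    constructor
    · rintro ⟨hc, v, h4, h5⟩
      exact ⟨v, ⟨hc, h4⟩, h5⟩
    · rintro ⟨v, ⟨hc, h4⟩, h5⟩
      exact ⟨hc, v, h4, h5⟩

include hP hA hs in
/-- every root has a neighbour -/
theorem ex_rt (hN : 2 ≤ N) (v : V) : ∃ x : Sv A P N, rt x = some v := by
  obtain ⟨w, hw⟩ := (hA v).exists
  by_cases hv : P v
  · refine ⟨.md v w ⟨hv, hw⟩ ⟨0, by omega⟩, ?_⟩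
    rw [rt_md, if_pos rfl]
  · have h1 : P w := by
      have := hP _ _ hw
      tauto
    refine ⟨.md w v ⟨h1, hs _ _ hw⟩ ⟨N - 1, by omega⟩, ?_⟩
    rw [rt_md, if_neg (by show ¬ N - 1 = 0; omega), if_pos (by show N - 1 + 1 = N; omega)]

include hP hN hA hs in
theorem fr_rt (v : V) : Fr 16 fun w : Sv A P N => rt w = some v := by
  obtain ⟨z, hz⟩ := ex_rt hP hA hs hN v
  refine (fr_same hP hA hs (rt_root hz)).mono fun w hw => ?_
  rw [hw.2, hz]

include hA in
theorem fr_v (v0 : V) : Fr 16 fun _w : V => True := (hA v0).mono fun _ _ => trivial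

include hP hN hA hs in
/-- common non-neighbours in all layers -/
theorem fr_non (x x' x0 : Sv A P N) :
    Fr 10 fun w : Sv A P N => lay w = lay x0 ∧ ¬ SS c x w ∧ ¬ SS c x' w := by
  have key : Fr 16 fun w : Sv A P N => lay w = lay x0 ∧ (¬ ∃ v, Gm c x v ∧ rt w = some v) ∧
      ¬ ∃ v, Gm c x' v ∧ rt w = some v := by
    have hV : ∀ v0 : V, ∃ v : V, ¬ Gm c x v ∧ ¬ Gm c x' v := by
      intro v0
      have h1 : ∀ x : Sv A P N, Ev 1 fun v => ¬ Gm c x v := by
        intro x
        by_cases hx : ∃ v, Gm c x v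
        · obtain ⟨v, hv⟩ := hx
          exact (ev_ne v).mono fun w hw h => hw (gm_uniq h hv)
        · exact Ev.of_all fun v h => hx ⟨v, h⟩
      obtain ⟨v, -, hv⟩ := (fr_v hA v0).meet ((h1 x).and (h1 x')) (by omega)
      exact ⟨v, hv⟩
    by_cases h0 : Root x0
    · obtain ⟨v0, rfl⟩ := h0
      have h1 : Function.Injective (Sv.o : V → Sv A P N) := fun a b h => Sv.o.inj h
      refine Fr.map h1 ((fr_v hA v0).mono fun v _ => ?_)
      refine ⟨rfl, ?_, ?_⟩
      · rintro ⟨v', -, h⟩
        exact absurd h (by simp [rt])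
      · rintro ⟨v', -, h⟩
        exact absurd h (by simp [rt])
    · cases h2 : rt x0 with
      | none =>
        refine (fr_same hP hA hs h0).mono fun w hw => ⟨hw.1, ?_, ?_⟩
        · rintro ⟨v', -, h⟩
          rw [hw.2, h2] at h
          exact absurd h (by simp)
        · rintro ⟨v', -, h⟩
          rw [hw.2, h2] at h
          exact absurd h (by simp)
      | some v0 =>
        obtain ⟨v, hv1, hv2⟩ := hV v0
        refine (fr_rt hP hN hA hs v).mono fun w hw => ⟨?_, ?_, ?_⟩
        · rw [lay_rt hN hw, lay_rt hN h2]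
        · rintro ⟨v', h3, h⟩
          rw [hw] at h
          rw [← Option.some.inj h] at h3
          exact hv1 h3
        · rintro ⟨v', h3, h⟩
          rw [hw] at h
          rw [← Option.some.inj h] at h3
          exact hv2 h3
  refine (Fr.and (k := 10) key ((ss_ev (c := c) hN x).and (ss_ev (c := c) hN x'))).mono ?_
  rintro w ⟨⟨h1, h2, h3⟩, h4, h5⟩
  exact ⟨h1, fun h => h2 (h4.1 h), fun h => h3 (h5.1 h)⟩

theorem eqv_symm {x x' : Sv A P N} (h : Eqv (YY c g) x x') : Eqv (YY c g) x' x :=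
  h.mono fun _ h => h.symm

include hP hN hA hs in
theorem eqv_g {x x' : Sv A P N} (h : Eqv (YY c g) x x') (x0 : Sv A P N) :
    g (lay x) (lay x0) ↔ g (lay x') (lay x0) := by
  obtain ⟨w, ⟨h1, h2, h3⟩, h4, h5, h6⟩ :=
    (fr_non hP hN hA hs x x' x0).meet (Ev.and h ((ev_ne x).and (ev_ne x'))) (by omega)
  rw [yy_iff h5, yy_iff h6, h1] at h4
  unfold Xor at h4
  tauto

include hP hN hA hs in
theorem eqv_gm {x x' : Sv A P N} (h : Eqv (YY c g) x x') {v : V} (hv : Gm c x v) : Gm c x' v := by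
  obtain ⟨w, h1, h2, h3, h4, h5, h6⟩ :=
    (fr_rt hP hN hA hs v).meet
      (Ev.and h ((ev_ne x).and ((ev_ne x').and ((ss_ev hN x).and (ss_ev hN x'))))) (by omega)
  rw [yy_iff h3, yy_iff h4, xor_g (eqv_g hP hN hA hs h w)] at h2
  obtain ⟨v', h7, h8⟩ := h6.1 (h2.1 (h5.2 ⟨v, hv, h1⟩))
  rw [h1] at h8
  rw [Option.some.inj h8]
  exact h7

include hN in
theorem eqv_of {x x' : Sv A P N} (h : lay x' = lay x) (h' : ∀ v, Gm c x v ↔ Gm c x' v) :
    Eqv (YY c g) x x' := by
  refine (((ev_ne x).and ((ev_ne x').and ((ss_ev (c := c) hN x).and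
    (ss_ev (c := c) hN x')))).mono ?_).le (by omega)
  rintro w ⟨h1, h2, h3, h4⟩
  rw [yy_iff h1, yy_iff h2, h, xor_g Iff.rfl, h3, h4]
  simp only [h']

include hN in
theorem eqv_same {z z' : Sv A P N} (hz : ¬ Root z) (h : lay z' = lay z ∧ rt z' = rt z) :
    Eqv (YY c g) z z' := by
  refine eqv_of hN h.1 fun v => ?_
  rw [gm_nr hz, gm_nr (nr_of_lay hz h.1), h.2]

include hP hN hA hs in
/-- **irregular pairs** -/
theorem ir_iff (z w : Sv A P N) :
    Ir (YY c g) z w ↔ BS z w ∧ ¬ Root z ∧ ¬ Root w := by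
  constructor
  · rintro ⟨hne, hfr, hev⟩
    have hz : ¬ Root z := by
      rintro ⟨u, rfl⟩
      have hb : Ev 2 fun z' => ¬ Root w → ¬ BS w z' := by
        by_cases hw : Root w
        · exact Ev.of_all fun z' h => absurd hw h
        · exact (ev_nb hw).mono fun z' h _ => h
      obtain ⟨z', h1, h2, h3, h4, h5⟩ :=
        hfr.meet (hev.and ((ev_ne (.o u)).and ((ev_ne w).and hb))) (by omega)
      have h2 := h2 h1
      have h6 := eqv_gm hP hN hA hs h1 (v := u) (Or.inl rfl)
      have h7 : c ∧ rt z' = some u := by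
        rcases h6 with h6 | h6
        · exact absurd h6 h3
        · exact h6
      rw [yy_iff h4.symm, yy_iff hne, xor_g (eqv_g hP hN hA hs h1 w).symm] at h2
      apply h2
      unfold SS
      rw [bs_root' hN]
      constructor
      · rintro (h8 | ⟨-, -, v, h8, h9⟩)
        · by_cases hw : Root w
          · obtain ⟨v, rfl⟩ := hw
            rw [bs_root hN, h7.2] at h8
            exact absurd (congrArg Sv.o (Option.some.inj h8).symm) hne
          · exact absurd (bs_symm h8) (h5 hw)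
        · rw [h7.2] at h8
          rw [← Option.some.inj h8] at h9
          exact Or.inl h9
      · rintro (h8 | ⟨-, -, v, h8, -⟩)
        · exact Or.inr ⟨h7.1, h4, u, h7.2, h8⟩
        · exact absurd h8 (by simp [rt])
    have hfz := fr_same hP hA hs hz
    have hww : ¬ Root w := by
      rintro ⟨u, rfl⟩
      obtain ⟨z', h1, h2, h3⟩ := hfz.meet (hev.and (ev_ne (.o u))) (by omega)
      have h4 := h2 (eqv_same hN hz h1)
      rw [yy_iff h3.symm, yy_iff hne, h1.1, xor_g Iff.rfl] at h4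
      apply h4
      unfold SS
      rw [bs_root hN, bs_root hN, h1.2]
      have h5 : ¬ ∃ v, rt z = some v ∧ rt (.o u : Sv A P N) = some v := by
        rintro ⟨v, -, h⟩
        exact absurd h (by simp [rt])
      simp only [h5, and_false, or_false]
    refine ⟨?_, hz, hww⟩
    by_contra hb
    obtain ⟨z', h1, h2, h3, h4⟩ := hfz.meet (hev.and ((ev_ne w).and (ev_nb hww))) (by omega)
    have h5 := h2 (eqv_same hN hz h1)
    rw [yy_iff h3.symm, yy_iff hne, h1.1, xor_g Iff.rfl] at h5
    apply h5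
    unfold SS
    rw [h1.2]
    have h6 : ¬ BS z' w := fun h => h4 (bs_symm h)
    have h7 : z ≠ w := hne.symm
    simp only [h6, hb, h3, h7, false_or, ne_eq, not_false_iff, true_and]
  · rintro ⟨hb, hz, hw⟩
    have hne := bs_ne hN hb
    refine ⟨hne.symm, ((fr_same hP hA hs hz).mono fun z' h => eqv_same hN hz h).le (by omega), ?_⟩
    refine ((ev_ne w).and (ev_nb hw)).mono ?_
    rintro z' ⟨h1, h2⟩ h3
    rw [yy_iff h1.symm, yy_iff hne.symm, xor_g (eqv_g hP hN hA hs h3 w).symm]
    have h4 : SS c z w := Or.inl hb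
    have h5 : ¬ SS c z' w := by
      rintro (h5 | ⟨hc, -, v, h5, h6⟩)
      · exact h2 (bs_symm h5)
      · have h7 := eqv_gm hP hN hA hs (eqv_symm h3) (v := v) (Or.inr ⟨hc, h5⟩)
        rw [gm_nr hz] at h7
        exact bs_rt hP hN h7.2 h6 hb
    tauto

include hP hN hA hs in
theorem rt_iff (z : Sv A P N) : Rt (YY c g) z ↔ Root z := by
  constructor
  · intro h
    by_contra hz
    cases z with
    | o v => exact hz ⟨v, rfl⟩
    | md u w h0 i =>
      have hi := i.2
      by_cases h1 : i.1 + 1 < N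
      · exact h (.md u w h0 ⟨i.1 + 1, h1⟩) ((ir_iff hP hN hA hs _ _).2
          ⟨bs_mm.2 ⟨rfl, rfl, Or.inl rfl⟩, not_root_md, not_root_md⟩)
      · refine h (.md u w h0 ⟨i.1 - 1, by omega⟩) ((ir_iff hP hN hA hs _ _).2
          ⟨bs_mm.2 ⟨rfl, rfl, Or.inr ?_⟩, not_root_md, not_root_md⟩)
        show i.1 - 1 + 1 = i.1
        omega
  · intro h w hw
    exact ((ir_iff hP hN hA hs _ _).1 hw).2.1 h

include hP hN hA hs in
theorem rl_iff (u v : Sv A P N) : RL (YY c g) u v ↔ BS u v ∧ Root u := by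
  unfold RL
  simp only [rt_iff hP hN hA hs]
  constructor
  · rintro ⟨hne, ⟨a, rfl⟩, h⟩
    refine ⟨?_, a, rfl⟩
    by_contra hb
    have h1 : Fr 15 fun u' : Sv A P N => Root u' ∧ ¬ BS u' v := by
      have h2 : Function.Injective (Sv.o : V → Sv A P N) := fun a b h => Sv.o.inj h
      refine Fr.map h2 ?_
      have h3 : Ev 1 fun v' => rt v ≠ some v' := by
        cases h4 : rt v with
        | none => exact Ev.of_all fun v' h => absurd h (by simp)
        | some v0 => exact (ev_ne v0).mono fun v' h e => h (Option.some.inj e).symm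
      refine (Fr.and (k := 15) (fr_v hA a) h3).mono fun v' h5 => ⟨⟨v', rfl⟩, ?_⟩
      rw [bs_root' hN]
      exact h5.2
    obtain ⟨u', ⟨⟨a', rfl⟩, h3⟩, h4, h5⟩ := h1.meet ((ev_ne (.o a)).and (ev_ne v)) (by omega)
    refine h4 (h _ ⟨a', rfl⟩ ?_)
    rw [yy_iff h5.symm, yy_iff hne.symm]
    have h6 : ∀ b : V, ¬ BS (.o b) v → ¬ SS c (.o b) v := by
      rintro b h7 (h8 | ⟨-, -, v', h8, -⟩)
      · exact h7 h8
      · exact absurd h8 (by simp [rt])
    have h7 := h6 a hb
    have h8 := h6 a' h3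
    have h9 : lay (.o a' : Sv A P N) = lay (.o a : Sv A P N) := rfl
    rw [h9, xor_g Iff.rfl]
    exact iff_of_false h8 h7
  · rintro ⟨hb, a, rfl⟩
    have hv := (bs_root' hN _ _).1 hb
    have hnr := rt_root hv
    refine ⟨?_, ⟨a, rfl⟩, ?_⟩
    · rintro rfl
      exact hnr ⟨a, rfl⟩
    · rintro _ ⟨a', rfl⟩ h
      have e1 : ∀ b : V, v ≠ .o b := fun b e => hnr ⟨b, e⟩
      rw [yy_iff (e1 a'), yy_iff (e1 a)] at h
      have h9 : lay (.o a' : Sv A P N) = lay (.o a : Sv A P N) := rfl
      rw [h9, xor_g Iff.rfl] at h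
      rcases h.2 (Or.inl hb) with h1 | ⟨-, -, v', h1, -⟩
      · rw [bs_root' hN, hv] at h1
        rw [Option.some.inj h1]
      · exact absurd h1 (by simp [rt])

include hP hN hA hs in
/-- **The edges are definable from the flip.** -/
theorem dec_iff (x y : Sv A P N) : Dec (YY c g) x y ↔ BS x y := by
  unfold Dec
  rw [ir_iff hP hN hA hs, ir_iff hP hN hA hs, rl_iff hP hN hA hs, rl_iff hP hN hA hs]
  constructor
  · rintro (h | h | h | h)
    · exact h.1
    · exact bs_symm h.1
    · exact h.1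
    · exact bs_symm h.1
  · intro h
    by_cases hx : Root x
    · exact Or.inr (Or.inr (Or.inl ⟨h, hx⟩))
    · by_cases hy : Root y
      · exact Or.inr (Or.inr (Or.inr ⟨bs_symm h, hy⟩))
      · exact Or.inl ⟨h, hx, hy⟩

end sub

end Pool.Agent.Run7.h653.GI
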