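import Pool.Agent.Run7.h653.GI.Fb
import Pool.Agent.Run7.h529.IsoRed
import Pool.Agent.H38.NP.Graphs

/-!
The codes are computed in polynomial time.
-/

set_option autoImplicit false

namespace Pool.Agent.Run7.h653.GI

open Pool.Agent.H38.NP
open Pool.Agent.TH748.CG (Sv)
open Pool.Agent.Run7.h653.AE (SS YY ss_comm ss_oo ss_om ss_mm lay)

/-- names of the vertices of a code: the first component for the first side, the second and the
third one for the second side, the last one for the kind -/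
abbrev Q4 : Type := ℕ × ℕ × ℕ × ℕ

/-- adjacency of `a` and `b` -/
def gb (x : ℕ × List (ℕ × ℕ)) (a b : ℕ) : Bool :=
  decide (a < x.1) && decide (b < x.1) && decide (a ≠ b) &&
    (decide ((a, b) ∈ x.2) || decide ((b, a) ∈ x.2))

/-- the missing edges of the incidence graph -/
def nb (x : ℕ × List (ℕ × ℕ)) (c a b : ℕ) : Bool :=
  (decide (c = a) && decide (a < x.1)) || (decide (c = b) && gb x a b)

/-- the name of a vertex -/
def ok (x : ℕ × List (ℕ × ℕ)) (q : Q4) : Bool :=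
  if q.2.2.2 = 0 then decide (q.2.1 = 0) && decide (q.2.2.1 = 0)
  else if q.2.2.2 = 1 then decide (q.1 = 0) else !(nb x q.1 q.2.1 q.2.2.1)

/-- the list of the names -/
def vL (N : ℕ) (x : ℕ × List (ℕ × ℕ)) : List Q4 :=
  (List.range (x.1 + 20) ×ˢ List.range (x.1 + 20) ×ˢ List.range (x.1 + 20) ×ˢ
    List.range (N + 2)).filter (ok x)

/-- edges, in one direction -/
def e0 (cl : Bool) (N : ℕ) (p q : Q4) : Bool :=
  (decide (p.2.2.2 = 0) && decide (q.2.2.2 = 2) && decide (p.1 = q.1)) ||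
  (decide (p.2.2.2 = 1) && decide (q.2.2.2 = N + 1) && decide (p.2.1 = q.2.1) &&
    decide (p.2.2.1 = q.2.2.1)) ||
  (decide (2 ≤ p.2.2.2) && decide (p.2.2.2 + 1 = q.2.2.2) && decide (p.1 = q.1) &&
    decide (p.2.1 = q.2.1) && decide (p.2.2.1 = q.2.2.1)) ||
  (cl && decide (p.2.2.2 = 2) && decide (q.2.2.2 = 2) && decide (p.1 = q.1)) ||
  (cl && decide (p.2.2.2 = N + 1) && decide (q.2.2.2 = N + 1) && decide (p.2.1 = q.2.1) &&
    decide (p.2.2.1 = q.2.2.1))

/-- the layer -/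
def lq (N : ℕ) (p : Q4) : ℕ := if p.2.2.2 ≤ 1 then 0 else min (p.2.2.2 - 1) (N + 2 - p.2.2.2)

/-- adjacency in the code -/
def adjQ (cl : Bool) (N : ℕ) (gl : List (ℕ × ℕ)) (p q : Q4) : Bool :=
  xor (e0 cl N p q || e0 cl N q p) (decide ((lq N p, lq N q) ∈ gl))

/-- the code -/
def encC (cl : Bool) (N : ℕ) (gl : List (ℕ × ℕ)) (x : ℕ × List (ℕ × ℕ)) : ℕ × List (ℕ × ℕ) :=
  ((vL N x).length, edgesOf (vL N x).length fun u v =>
    adjQ cl N gl ((vL N x).getD u (0, 0, 0, 0)) ((vL N x).getD v (0, 0, 0, 0)))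

/-! ### Running time -/

theorem PT_ok : PT fun p : (ℕ × List (ℕ × ℕ)) × Q4 => ok p.1 p.2 := by
  unfold ok nb gb
  fun_prop

theorem PT_vL (N : ℕ) : PT (vL N) := by
  unfold vL
  refine PT.filter (f := fun (x : ℕ × List (ℕ × ℕ)) (q : Q4) => ok x q) PT_ok ?_
  exact PT.product (by fun_prop) (PT.product (by fun_prop) (PT.product (by fun_prop) (by fun_prop)))

theorem PT_adjQ (cl : Bool) (N : ℕ) (gl : List (ℕ × ℕ)) :
    PT fun p : Q4 × Q4 => adjQ cl N gl p.1 p.2 := by
  unfold adjQ e0 lq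
  fun_prop

theorem PT_encC (cl : Bool) (N : ℕ) (gl : List (ℕ × ℕ)) : PT (encC cl N gl) := by
  have h0 := PT_vL N
  have h2 : PT fun p : (ℕ × List (ℕ × ℕ)) × ℕ × ℕ => vL N p.1 :=
    h0.comp (g := fun p : (ℕ × List (ℕ × ℕ)) × ℕ × ℕ => p.1) (by fun_prop)
  unfold encC
  refine PT.mk (by fun_prop) (PT.edgesOf (by fun_prop) ?_)
  exact (PT_adjQ cl N gl).comp (g := fun p : (ℕ × List (ℕ × ℕ)) × ℕ × ℕ =>
    (((vL N p.1).getD p.2.1 (0, 0, 0, 0)), ((vL N p.1).getD p.2.2 (0, 0, 0, 0)))) (by fun_prop)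

/-! ### Names -/

/-- the first component -/
def cu {m : ℕ} : Vn m → ℕ
  | .inl c => c.val
  | .inr _ => 0

/-- the second component -/
def ca {m : ℕ} : Vn m → ℕ
  | .inl _ => 0
  | .inr q => q.1.val

/-- the third component -/
def cb {m : ℕ} : Vn m → ℕ
  | .inl _ => 0
  | .inr q => q.2.val

/-- the name of a vertex -/
def code {n : ℕ} {G : SimpleGraph (Fin n)} {N : ℕ} : Cv G N → Q4
  | .o (.inl c) => (c.val, 0, 0, 0)
  | .o (.inr q) => (0, q.1.val, q.2.val, 1)
  | .md u w _ i => (cu u, ca w, cb w, i.val + 2)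

section

variable (x : ℕ × List (ℕ × ℕ))

theorem gb_iff (a b : Fin (x.1 + 20)) : gb x a b = true ↔ EE (graphOf x.1 x.2) a b := by
  unfold gb EE
  simp only [Bool.and_eq_true, Bool.or_eq_true, decide_eq_true_eq, graphOf_adj, ne_eq, Fin.mk.injEq]
  constructor
  · rintro ⟨⟨⟨h1, h2⟩, h3⟩, h4⟩
    exact ⟨h1, h2, h3, h4⟩
  · rintro ⟨h1, h2, h3, h4⟩
    exact ⟨⟨⟨h1, h2⟩, h3⟩, h4⟩

theorem nb_iff (c a b : Fin (x.1 + 20)) : nb x c a b = true ↔ NA (graphOf x.1 x.2) c a b := by
  unfold nb NA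
  simp only [Bool.and_eq_true, Bool.or_eq_true, decide_eq_true_eq, gb_iff, Fin.ext_iff]

theorem mem_vL {N : ℕ} {q : Q4} : q ∈ vL N x ↔ (q.1 < x.1 + 20 ∧ q.2.1 < x.1 + 20 ∧
    q.2.2.1 < x.1 + 20 ∧ q.2.2.2 < N + 2) ∧ ok x q = true := by
  obtain ⟨c, a, b, i⟩ := q
  unfold vL
  simp only [List.mem_filter, List.mem_product, List.mem_range]

theorem nodup_vL (N : ℕ) : (vL N x).Nodup := by
  unfold vL
  exact (List.nodup_range.product (List.nodup_range.product
    (List.nodup_range.product List.nodup_range))).filter _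

theorem code_mem {N : ℕ} (s : Cv (graphOf x.1 x.2) N) : code s ∈ vL N x := by
  rw [mem_vL]
  cases s with
  | o v =>
    rcases v with c | ⟨a, b⟩
    · simp [code, ok]
    · simp [code, ok]
  | md u w h i =>
    obtain ⟨hu, hw⟩ := h
    rcases u with c | q
    swap
    · exact absurd hu (pn_r _)
    rcases w with d | ⟨a, b⟩
    · exact hw.elim
    have hi := i.2
    refine ⟨⟨c.2, a.2, b.2, ?_⟩, ?_⟩
    · show i.val + 2 < N + 2
      omega
    · show ok x (c.val, a.val, b.val, i.val + 2) = true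
      have h1 : nb x c a b = false := by
        rw [Bool.eq_false_iff]
        exact fun h => hw ((nb_iff x c a b).1 h)
      simp [ok, h1]

theorem code_surj {N : ℕ} {q : Q4} (hq : q ∈ vL N x) :
    ∃ s : Cv (graphOf x.1 x.2) N, code s = q := by
  obtain ⟨c, a, b, i⟩ := q
  rw [mem_vL] at hq
  obtain ⟨⟨h1, h2, h3, h4⟩, h5⟩ := hq
  simp only at h1 h2 h3 h4
  unfold ok at h5
  simp only at h5
  split_ifs at h5 with h6 h7
  · simp only [Bool.and_eq_true, decide_eq_true_eq] at h5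
    refine ⟨.o (.inl ⟨c, h1⟩), ?_⟩
    show (c, 0, 0, 0) = _
    rw [h5.1, h5.2, h6]
  · simp only [decide_eq_true_eq] at h5
    refine ⟨.o (.inr (⟨a, h2⟩, ⟨b, h3⟩)), ?_⟩
    show (0, a, b, 1) = _
    rw [h5, h7]
  · have h8 : ¬ NA (graphOf x.1 x.2) ⟨c, h1⟩ ⟨a, h2⟩ ⟨b, h3⟩ := by
      rw [← nb_iff]
      show ¬ nb x c a b = true
      simpa using h5
    refine ⟨.md (.inl ⟨c, h1⟩) (.inr (⟨a, h2⟩, ⟨b, h3⟩)) ⟨pn_l _, h8⟩ ⟨i - 2, by omega⟩, ?_⟩
    show (c, a, b, i - 2 + 2) = _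
    rw [show i - 2 + 2 = i by omega]

theorem code_inj {n : ℕ} {G : SimpleGraph (Fin n)} {N : ℕ} :
    Function.Injective (code : Cv G N → Q4) := by
  intro s t h
  cases s with
  | o v =>
    cases t with
    | o w =>
      rcases v with c | ⟨a, b⟩ <;> rcases w with c' | ⟨a', b'⟩ <;> simp [code] at h
      · rw [Fin.ext h]
      · rw [Fin.ext h.1, Fin.ext h.2]
    | md u w h0 i =>
      rcases v with c | ⟨a, b⟩ <;> simp [code] at h
  | md u w h0 i =>
    cases t with
    | o v =>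
      rcases v with c | ⟨a, b⟩ <;> simp [code] at h
    | md u' w' h0' i' =>
      obtain ⟨hu, hw⟩ := h0
      obtain ⟨hu', hw'⟩ := h0'
      rcases u with c | q
      swap
      · exact absurd hu (pn_r _)
      rcases w with d | ⟨a, b⟩
      · exact hw.elim
      rcases u' with c' | q'
      swap
      · exact absurd hu' (pn_r _)
      rcases w' with d' | ⟨a', b'⟩
      · exact hw'.elim
      simp [code, cu, ca, cb] at h
      obtain ⟨h1, h2, h3, h4⟩ := h
      obtain rfl := Fin.ext h1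
      obtain rfl := Fin.ext h2
      obtain rfl := Fin.ext h3
      obtain rfl := Fin.ext h4
      rfl

end

theorem lq_code {n : ℕ} {G : SimpleGraph (Fin n)} {N : ℕ} (s : Cv G N) :
    lq N (code s) = lay s := by
  cases s with
  | o v => rcases v with c | ⟨a, b⟩ <;> rfl
  | md u w h i =>
    have hi := i.2
    show (if i.val + 2 ≤ 1 then 0 else min (i.val + 2 - 1) (N + 2 - (i.val + 2))) =
      min (i.val + 1) (N - i.val)
    rw [if_neg (by omega)]
    omega

theorem e0_iff {cl : Bool} {N : ℕ} {p q : Q4} : e0 cl N p q = true ↔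
    (p.2.2.2 = 0 ∧ q.2.2.2 = 2 ∧ p.1 = q.1) ∨
    (p.2.2.2 = 1 ∧ q.2.2.2 = N + 1 ∧ p.2.1 = q.2.1 ∧ p.2.2.1 = q.2.2.1) ∨
    (2 ≤ p.2.2.2 ∧ p.2.2.2 + 1 = q.2.2.2 ∧ p.1 = q.1 ∧ p.2.1 = q.2.1 ∧ p.2.2.1 = q.2.2.1) ∨
    (cl = true ∧ p.2.2.2 = 2 ∧ q.2.2.2 = 2 ∧ p.1 = q.1) ∨
    (cl = true ∧ p.2.2.2 = N + 1 ∧ q.2.2.2 = N + 1 ∧ p.2.1 = q.2.1 ∧ p.2.2.1 = q.2.2.1) := by
  unfold e0
  simp only [Bool.and_eq_true, Bool.or_eq_true, decide_eq_true_eq, and_assoc, or_assoc]

theorem ss_code {n : ℕ} {G : SimpleGraph (Fin n)} {N : ℕ} (hN : 2 ≤ N) (cl : Bool) {s t : Cv G N}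
    (hst : s ≠ t) : SS (cl = true) s t ↔
      (e0 cl N (code s) (code t) || e0 cl N (code t) (code s)) = true := by
  have hom : ∀ (v : Vn (n + 20)) (t : Cv G N), SS (cl = true) (.o v) t ↔
      (e0 cl N (code (.o v : Cv G N)) (code t) || e0 cl N (code t) (code (.o v : Cv G N))) = true := by
    intro v t
    cases t with
    | o w =>
      refine iff_of_false (ss_oo hN _ _) ?_
      rcases v with c | ⟨a, b⟩ <;> rcases w with c' | ⟨a', b'⟩ <;>
        simp only [Bool.or_eq_true, e0_iff, code] <;> omega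
    | md u w h i =>
      obtain ⟨hu, hw⟩ := h
      rcases u with c | q
      swap
      · exact absurd hu (pn_r _)
      rcases w with d | ⟨a, b⟩
      · exact hw.elim
      have hi := i.2
      rw [ss_om hN]
      rcases v with c' | ⟨a', b'⟩ <;> cases cl <;>
        simp only [Bool.or_eq_true, e0_iff, code, cu, ca, cb, Sum.inl.injEq, Sum.inr.injEq,
          Prod.mk.injEq, Fin.ext_iff, reduceCtorEq, and_false, or_false, false_or, Bool.false_eq_true,
          false_and, true_and] <;> omega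
  cases s with
  | o v => exact hom v t
  | md u w h i =>
    cases t with
    | o v => rw [ss_comm, hom v, Bool.or_comm]
    | md u' w' h' i' =>
      obtain ⟨hu, hw⟩ := h
      obtain ⟨hu', hw'⟩ := h'
      rcases u with c | q
      swap
      · exact absurd hu (pn_r _)
      rcases w with d | ⟨a, b⟩
      · exact hw.elim
      rcases u' with c' | q'
      swap
      · exact absurd hu' (pn_r _)
      rcases w' with d' | ⟨a', b'⟩
      · exact hw'.elim
      have hi := i.2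
      have hi' := i'.2
      have hne : ¬ (c.val = c'.val ∧ a.val = a'.val ∧ b.val = b'.val ∧ i.val = i'.val) := by
        rintro ⟨h1, h2, h3, h4⟩
        obtain rfl := Fin.ext h1
        obtain rfl := Fin.ext h2
        obtain rfl := Fin.ext h3
        obtain rfl := Fin.ext h4
        exact hst rfl
      have ec : c'.val = c.val ↔ c.val = c'.val := eq_comm
      have ea : a'.val = a.val ↔ a.val = a'.val := eq_comm
      have eb : b'.val = b.val ↔ b.val = b'.val := eq_comm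
      rw [ss_mm (aa_part G) hN]
      simp only [Bool.or_eq_true, e0_iff, code, cu, ca, cb, Sum.inl.injEq, Sum.inr.injEq,
        Prod.mk.injEq, Fin.ext_iff, ne_eq, ec, ea, eb]
      by_cases h1 : c.val = c'.val <;> by_cases h2 : a.val = a'.val <;>
        by_cases h3 : b.val = b'.val <;> cases cl <;>
        simp only [h1, h2, h3, true_and, and_true, false_and, and_false, or_false, false_or,
          not_true, not_false_iff, Bool.false_eq_true, false_iff] at hne ⊢ <;> omega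

/-- adjacency in the code -/
theorem yy_code {n : ℕ} {G : SimpleGraph (Fin n)} {N : ℕ} (hN : 2 ≤ N) (cl : Bool)
    (gl : List (ℕ × ℕ)) (s t : Cv G N) :
    YY (cl = true) (fun i j => (i, j) ∈ gl) s t ↔ s ≠ t ∧ adjQ cl N gl (code s) (code t) = true := by
  unfold YY adjQ
  refine and_congr_right fun hst => ?_
  rw [ss_code hN cl hst, lq_code, lq_code]
  cases h1 : (e0 cl N (code s) (code t) || e0 cl N (code t) (code s)) <;>
    by_cases h2 : (lay s, lay t) ∈ gl <;> simp [h2, Xor]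

theorem adjQ_comm (cl : Bool) (N : ℕ) {gl : List (ℕ × ℕ)} (hg : ∀ i j, (i, j) ∈ gl → (j, i) ∈ gl)
    (p q : Q4) : adjQ cl N gl p q = adjQ cl N gl q p := by
  unfold adjQ
  rw [Bool.or_comm]
  congr 1
  rw [decide_eq_decide]
  exact ⟨hg _ _, hg _ _⟩

/-- **the encoded graph is the code** -/
theorem encC_iso (x : ℕ × List (ℕ × ℕ)) {N : ℕ} (hN : 2 ≤ N) (cl : Bool) {gl : List (ℕ × ℕ)}
    (hg : ∀ i j, (i, j) ∈ gl → (j, i) ∈ gl) :
    Nonempty (graphOf (encC cl N gl x).1 (encC cl N gl x).2 ≃g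
      CG (cl = true) (fun i j => (i, j) ∈ gl) hg N (graphOf x.1 x.2)) := by
  have h1 : ∀ i : Fin (vL N x).length, ∃ s : Cv (graphOf x.1 x.2) N, code s = (vL N x)[i] :=
    fun i => code_surj x (List.getElem_mem i.2)
  choose d hd using h1
  have hdi : Function.Injective d := by
    intro i j h
    have h2 : (vL N x)[i] = (vL N x)[j] := by rw [← hd, ← hd, h]
    exact Fin.ext ((List.Nodup.getElem_inj_iff (nodup_vL x N)).1 h2)
  have hds : Function.Surjective d := by
    intro s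
    obtain ⟨i, hi, h2⟩ := List.getElem_of_mem (code_mem x s)
    refine ⟨⟨i, hi⟩, code_inj ?_⟩
    rw [hd]
    exact h2
  have key : ∀ u v : Fin (vL N x).length, YY (cl = true) (fun i j => (i, j) ∈ gl) (d u) (d v) ↔
      (graphOf (vL N x).length (edgesOf (vL N x).length fun u v =>
      adjQ cl N gl ((vL N x).getD u (0, 0, 0, 0)) ((vL N x).getD v (0, 0, 0, 0)))).Adj u v := by
    intro u v
    rw [graphOf_edgesOf_adj, yy_code hN, hd, hd, hdi.ne_iff]
    have hu : (vL N x).getD u.val (0, 0, 0, 0) = (vL N x)[u] := List.getD_eq_getElem _ _ u.2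
    have hv : (vL N x).getD v.val (0, 0, 0, 0) = (vL N x)[v] := List.getD_eq_getElem _ _ v.2
    rw [hu, hv, adjQ_comm cl N hg (vL N x)[v] (vL N x)[u], or_self]
    exact and_congr_left fun _ => not_congr Fin.ext_iff
  exact ⟨⟨Equiv.ofBijective d ⟨hdi, hds⟩, fun {u v} => key u v⟩⟩

end Pool.Agent.Run7.h653.GI
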