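import Pool.Agent.Run7.h653.GI.Fe

/-!
Graph isomorphism is as hard as in general for hereditary classes with flipped crossings.
-/

set_option autoImplicit false

namespace Pool.Agent.Run7.h653.GI

open Pool.Agent.H38.NP
open Pool.Agent.TH748.CG (Sv)
open Pool.Agent.Run7.h653.AE (YY gF gF_iff pos pos_inj yy_cross)
open Pool.Agent.Run7.h653.MD (Kind Vtx Edge crossing)
open Run7.h529

theorem gF_symm {r : ℕ} (F : Set (Sym2 (Fin (r + 2)))) (i j : ℕ) (h : gF r F i j) : gF r F j i := by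
  obtain ⟨hi, hj, h⟩ := h
  refine ⟨hj, hi, ?_⟩
  rw [Sym2.eq_swap]
  exact h

/-- the codes are induced subgraphs of flipped crossings -/
theorem cg_emb {n : ℕ} (G : SimpleGraph (Fin n)) {c : Prop} {r N : ℕ} (hr : 1 ≤ r)
    (hN : c → N = 2 * r) (hN' : ¬ c → N = 2 * r + 1) {κ : Kind} (hκ : κ = Kind.clique ↔ c)
    (hκ' : κ ≠ Kind.half) (F : Set (Sym2 (Fin (r + 2)))) {g : ℕ → ℕ → Prop} (hgF : g = gF r F)
    (hg : ∀ i j, g i j → g j i) :
    ∃ K, Nonempty (CG c g hg N G ↪g crossing κ (Fin K) r F) := by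
  subst hgF
  let e := Fintype.equivFin (Vn (n + 20) × Vn (n + 20))
  have h1 : Function.Injective fun v : Vn (n + 20) => e (v, v) := by
    intro v w h
    exact (Prod.mk.inj (e.injective h)).1
  refine ⟨_, ⟨⟨pos (fun v => e (v, v)) e r, pos_inj (c := c) _ _ r (aa_part G) h1 e.injective hr hN hN'⟩,
    ?_⟩⟩
  intro x y
  exact (yy_cross _ _ r (aa_part G) h1 e.injective hr hN hN' hκ hκ' F x y).symm

theorem gi_hard {I : Type} {V : I → Type} {H : ∀ i, SimpleGraph (V i)} {r : ℕ} (hr : 1 ≤ r)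
    {κ : Kind} (hκ : κ ≠ Kind.half) (F : Set (Sym2 (Fin (r + 2))))
    (hF : ∀ k i, IsEmpty (H i ↪g crossing κ (Fin k) r F)) :
    AsHardAsGI fun p => (∀ i, IsEmpty (H i ↪g gr1 p)) ∧ ∀ i, IsEmpty (H i ↪g gr2 p) := by
  classical
  let cl : Bool := decide (κ = Kind.clique)
  let N : ℕ := if κ = Kind.clique then 2 * r else 2 * r + 1
  let gl : List (ℕ × ℕ) := (List.range (r + 2) ×ˢ List.range (r + 2)).filter fun p =>
    decide (gF r F p.1 p.2)
  have hcl : κ = Kind.clique ↔ cl = true := by simp [cl]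
  have hN1 : cl = true → N = 2 * r := by
    rw [← hcl]
    exact fun h => if_pos h
  have hN2 : ¬ cl = true → N = 2 * r + 1 := by
    rw [← hcl]
    exact fun h => if_neg h
  have hN : 2 ≤ N := by
    by_cases h : cl = true
    · have := hN1 h
      omega
    · have := hN2 h
      omega
  have hgl : (fun i j => (i, j) ∈ gl) = gF r F := by
    funext i j
    refine propext ?_
    simp only [gl, List.mem_filter, List.mem_product, List.mem_range, decide_eq_true_eq]
    constructor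
    · exact fun h => h.2
    · intro h
      obtain ⟨hi, hj, h'⟩ := id h
      exact ⟨⟨hi, hj⟩, h⟩
  have hg : ∀ i j, (i, j) ∈ gl → (j, i) ∈ gl := by
    intro i j h
    have h1 : (fun i j => (i, j) ∈ gl) i j := h
    rw [hgl] at h1
    have h2 := gF_symm F i j h1
    rw [← hgl] at h2
    exact h2
  have hf : PT (encC cl N gl) := PT_encC cl N gl
  have hfree : ∀ x : ℕ × List (ℕ × ℕ), ∀ i,
      IsEmpty (H i ↪g graphOf (encC cl N gl x).1 (encC cl N gl x).2) := by
    intro x i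
    refine ⟨fun e => ?_⟩
    obtain ⟨φ⟩ := encC_iso x hN cl hg
    obtain ⟨K, ⟨ψ⟩⟩ := cg_emb (graphOf x.1 x.2) hr hN1 hN2 hcl hκ F hgl hg
    exact (hF K i).false ((e.trans φ.toRelEmbedding).trans ψ)
  refine asHard_of (fun p => (encC cl N gl p.1, encC cl N gl p.2)) ?_ fun p =>
    ⟨⟨hfree _, hfree _⟩, ?_⟩
  · have h1 : PT fun p : Inst => encC cl N gl p.1 := hf.comp (g := fun p : Inst => p.1) (by fun_prop)
    have h2 : PT fun p : Inst => encC cl N gl p.2 := hf.comp (g := fun p : Inst => p.2) (by fun_prop)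
    exact (PT.mk h1 h2).polyTimeOn _
  · obtain ⟨φ⟩ := encC_iso p.1 hN cl hg
    obtain ⟨ψ⟩ := encC_iso p.2 hN cl hg
    rw [show Iso p ↔ Nonempty (graphOf p.1.1 p.1.2 ≃g graphOf p.2.1 p.2.2) from Iff.rfl,
      ← cg_iff (c := cl = true) (g := fun i j => (i, j) ∈ gl) (hg := hg) (N := N) _ _ hN]
    exact ⟨fun ⟨θ⟩ => ⟨φ.trans (θ.trans ψ.symm)⟩, fun ⟨θ⟩ => ⟨φ.symm.trans (θ.trans ψ)⟩⟩

end Pool.Agent.Run7.h653.GI
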