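import Pool.Agent.Run7.h653.AE.Bs

/-!
Flipped subdivided graphs, finite version of the decoding: quantifiers with a bounded number of
exceptions.
-/

set_option autoImplicit false

namespace Pool.Agent.Run7.h653.GI

/-- all but at most `k` -/
def Ev {T : Type} (k : ℕ) (p : T → Prop) : Prop := {x | ¬ p x}.encard ≤ k

/-- more than `k` -/
def Fr {T : Type} (k : ℕ) (p : T → Prop) : Prop := (k : ℕ∞) < {x | p x}.encard

variable {T T' : Type} {k l : ℕ} {p q : T → Prop}

theorem Ev.mono (h : Ev k p) (hpq : ∀ x, p x → q x) : Ev k q :=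
  (Set.encard_le_encard (s := {x | ¬ q x}) (t := {x | ¬ p x})
    fun x (hx : ¬ q x) (hp : p x) => hx (hpq _ hp)).trans h

theorem Ev.le (h : Ev k p) (hkl : k ≤ l) : Ev l p :=
  le_trans h (by exact_mod_cast hkl)

theorem Fr.mono (h : Fr k p) (hpq : ∀ x, p x → q x) : Fr k q :=
  lt_of_lt_of_le h (Set.encard_le_encard fun x hx => hpq x hx)

theorem Fr.le (h : Fr k p) (hkl : l ≤ k) : Fr l p :=
  lt_of_le_of_lt (by exact_mod_cast hkl) h

theorem Ev.of_all (h : ∀ x, p x) : Ev k p := by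
  have : {x | ¬ p x} = ∅ := by
    ext x
    simp [h x]
  unfold Ev
  rw [this, Set.encard_empty]
  exact zero_le

theorem Ev.and (h : Ev k p) (h' : Ev l q) : Ev (k + l) fun x => p x ∧ q x := by
  unfold Ev at *
  have h1 : {x | ¬ (p x ∧ q x)} ⊆ {x | ¬ p x} ∪ {x | ¬ q x} := by
    intro x hx
    by_cases hp : p x
    · exact Or.inr fun hq => hx ⟨hp, hq⟩
    · exact Or.inl hp
  refine (Set.encard_le_encard h1).trans ((Set.encard_union_le _ _).trans ?_)
  push_cast
  exact add_le_add h h'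

theorem Fr.and (h : Fr (k + l) p) (h' : Ev l q) : Fr k fun x => p x ∧ q x := by
  unfold Fr Ev at *
  have h1 : {x | p x} ⊆ {x | p x ∧ q x} ∪ {x | ¬ q x} := by
    intro x hx
    by_cases hq : q x
    · exact Or.inl ⟨hx, hq⟩
    · exact Or.inr hq
  by_contra hc
  rw [not_lt] at hc
  have h2 := (Set.encard_le_encard h1).trans ((Set.encard_union_le _ _).trans (add_le_add hc h'))
  push_cast at h
  exact absurd (lt_of_lt_of_le h h2) (lt_irrefl _)

theorem Fr.exists (h : Fr k p) : ∃ x, p x := by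
  by_contra hc
  push Not at hc
  have : {x | p x} = ∅ := by
    ext x
    simp [hc x]
  unfold Fr at h
  rw [this, Set.encard_empty] at h
  exact absurd h not_lt_zero

theorem Fr.meet (h : Fr k p) (h' : Ev l q) (hl : l ≤ k) : ∃ x, p x ∧ q x :=
  (Fr.and (k := 0) (h.le (by omega)) h').exists

/-- everything but one point -/
theorem ev_ne (x : T) : Ev 1 fun w => w ≠ x := by
  have : {w | ¬ w ≠ x} = {x} := by
    ext w
    simp
  unfold Ev
  rw [this, Set.encard_singleton]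
  exact le_rfl

theorem Fr.map {f : T → T'} (hf : Function.Injective f) {q : T' → Prop} (h : Fr k fun x => q (f x)) :
    Fr k q := by
  unfold Fr at *
  refine lt_of_lt_of_le h ?_
  rw [← hf.encard_image]
  refine Set.encard_le_encard ?_
  rintro _ ⟨x, hx, rfl⟩
  exact hx

theorem Fr.map_sub {f : ∀ x, p x → T'} (hf : ∀ x hx y hy, f x hx = f y hy → x = y)
    {q : T' → Prop} (h : Fr k p) (hq : ∀ x hx, q (f x hx)) : Fr k q := by
  unfold Fr at *
  refine lt_of_lt_of_le h ?_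
  exact ENat.card_le_card_of_injective
    (f := fun x : {x | p x} => (⟨f x.1 x.2, hq _ _⟩ : {x | q x}))
    fun x y hxy => Subtype.ext (hf _ _ _ _ (congrArg Subtype.val hxy))

theorem ev_tr (ψ : T ≃ T') (q : T' → Prop) : Ev k q ↔ Ev k fun x => q (ψ x) := by
  unfold Ev
  rw [← ψ.injective.encard_image]
  have : (ψ '' {x | ¬ q (ψ x)}) = {y | ¬ q y} := by
    ext y
    constructor
    · rintro ⟨x, hx, rfl⟩
      exact hx
    · intro hy
      exact ⟨ψ.symm y, by simpa using hy, by simp⟩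
  rw [this]

theorem fr_tr (ψ : T ≃ T') (q : T' → Prop) : Fr k q ↔ Fr k fun x => q (ψ x) := by
  unfold Fr
  rw [← ψ.injective.encard_image]
  have : (ψ '' {x | q (ψ x)}) = {y | q y} := by
    ext y
    constructor
    · rintro ⟨x, hx, rfl⟩
      exact hx
    · intro hy
      exact ⟨ψ.symm y, by simpa using hy, by simp⟩
  rw [this]

/-! ## Decoding -/

section dec

variable (Y : T → T → Prop)

/-- the same neighbours up to eight -/
def Eqv (u v : T) : Prop := Ev 8 fun w => Y u w ↔ Y v w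

/-- the value at `(z, w)` differs from almost all values at `(z', w)` for `z'` in the class of `z` -/
def Ir (z w : T) : Prop :=
  w ≠ z ∧ (Fr 7 fun z' => Eqv Y z z') ∧ Ev 3 fun z' => Eqv Y z z' → ¬ (Y z' w ↔ Y z w)

/-- no irregular pairs -/
def Rt (z : T) : Prop := ∀ w, ¬ Ir Y z w

/-- the only exceptional root -/
def RL (u v : T) : Prop := u ≠ v ∧ Rt Y u ∧ ∀ u', Rt Y u' → (Y u' v ↔ Y u v) → u' = u

/-- the decoded edges -/
def Dec (x y : T) : Prop := Ir Y x y ∨ Ir Y y x ∨ RL Y x y ∨ RL Y y x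

end dec

section tr

variable {Y : T → T → Prop} {Y' : T' → T' → Prop} (ψ : T ≃ T')
  (hψ : ∀ x y, Y' (ψ x) (ψ y) ↔ Y x y)

include hψ

theorem eqv_tr (u v : T) : Eqv Y' (ψ u) (ψ v) ↔ Eqv Y u v := by
  unfold Eqv
  rw [ev_tr ψ]
  simp only [hψ]

theorem ir_tr (z w : T) : Ir Y' (ψ z) (ψ w) ↔ Ir Y z w := by
  unfold Ir
  rw [fr_tr ψ, ev_tr ψ]
  simp only [hψ, eqv_tr ψ hψ, Ne, ψ.injective.eq_iff]

theorem rt_tr (z : T) : Rt Y' (ψ z) ↔ Rt Y z := by
  unfold Rt
  constructor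
  · exact fun h w hw => h (ψ w) ((ir_tr ψ hψ _ _).2 hw)
  · intro h w hw
    refine h (ψ.symm w) ((ir_tr ψ hψ _ _).1 ?_)
    rwa [ψ.apply_symm_apply]

theorem rl_tr (u v : T) : RL Y' (ψ u) (ψ v) ↔ RL Y u v := by
  unfold RL
  refine and_congr (not_congr ψ.injective.eq_iff) (and_congr (rt_tr ψ hψ _) ?_)
  constructor
  · intro h u' h1 h2
    exact ψ.injective (h (ψ u') ((rt_tr ψ hψ _).2 h1) (by rw [hψ, hψ]; exact h2))
  · intro h u' h1 h2
    obtain ⟨u', rfl⟩ := ψ.surjective u'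
    rw [hψ, hψ] at h2
    rw [h u' ((rt_tr ψ hψ _).1 h1) h2]

theorem dec_tr (x y : T) : Dec Y' (ψ x) (ψ y) ↔ Dec Y x y := by
  unfold Dec
  rw [ir_tr ψ hψ, ir_tr ψ hψ, rl_tr ψ hψ, rl_tr ψ hψ]

end tr

end Pool.Agent.Run7.h653.GI
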